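import Mathlib

namespace Pool.Agent.MP_f57c03_lc.H35

/-- The field of rational functions over `K` in the `2 n ^ 2` indeterminates `a i j` (index
`Sum.inl (i, j)`) and `b i j` (index `Sum.inr (i, j)`). -/
abbrev RatFn (K : Type*) [Field K] (n : ℕ) : Type _ :=
  FractionRing (MvPolynomial ((Fin n × Fin n) ⊕ (Fin n × Fin n)) K)

/-- An indeterminate, as a rational function. -/
noncomputable def var (K : Type*) [Field K] (n : ℕ) (x : (Fin n × Fin n) ⊕ (Fin n × Fin n)) :
    RatFn K n :=
  algebraMap (MvPolynomial ((Fin n × Fin n) ⊕ (Fin n × Fin n)) K) (RatFn K n) (MvPolynomial.X x)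

/-- `u 0, ..., u (r - 1)` are the results of the `r` steps of a straight-line program with
inputs `I`: each is the sum, difference, product or quotient (by a nonzero element) of two
elements that are inputs or results of earlier steps. -/
def IsProgram {L : Type*} [Field L] (I : Set L) {r : ℕ} (u : Fin r → L) : Prop :=
  ∀ k : Fin r, ∃ v ∈ I ∪ u '' {j | j < k}, ∃ w ∈ I ∪ u '' {j | j < k},
    u k = v + w ∨ u k = v - w ∨ u k = v * w ∨ (w ≠ 0 ∧ u k = v / w)

/-- The least number of steps of a straight-line program over `K`, with inputs the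
indeterminates and the constants from `K`, whose results include all entries of `A * B`. -/
noncomputable def M (K : Type*) [Field K] (n : ℕ) : ℕ :=
  sInf {r : ℕ | ∃ u : Fin r → RatFn K n,
    IsProgram (Set.range (var K n) ∪ Set.range (algebraMap K (RatFn K n))) u ∧
    ∀ i j : Fin n, ∑ k : Fin n, var K n (Sum.inl (i, k)) * var K n (Sum.inr (k, j)) ∈ Set.range u}

end Pool.Agent.MP_f57c03_lc.H35
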