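import Mathlib
import Pool.Agent.MP_f57c03_lc.H35.Defs

namespace Pool.Agent.MP_f57c03_lc.H35

open Finset

section Reach
variable {L : Type*} [Field L]

def Op (v w u : L) : Prop := u = v + w ∨ u = v - w ∨ u = v * w ∨ (w ≠ 0 ∧ u = v / w)

inductive Reach : Set L → ℕ → Set L → Prop
  | refl (S : Set L) (c : ℕ) (T : Set L) : T ⊆ S → Reach S c T
  | step (S : Set L) (c : ℕ) (T : Set L) (v w u : L) :
      v ∈ S → w ∈ S → Op v w u → Reach (insert u S) c T → Reach S (c + 1) T

theorem Reach.mono_left {S T : Set L} {c : ℕ} (h : Reach S c T) :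
    ∀ {S' : Set L}, S ⊆ S' → Reach S' c T := by
  induction h with
  | refl S c T hT => intro S' hS; exact Reach.refl _ _ _ (hT.trans hS)
  | step S c T v w u hv hw hop _ ih =>
    intro S' hS
    exact Reach.step _ _ _ v w u (hS hv) (hS hw) hop (ih (Set.insert_subset_insert hS))

theorem Reach.mono_right {S T : Set L} {c : ℕ} (h : Reach S c T) :
    ∀ {T' : Set L}, T' ⊆ T → Reach S c T' := by
  induction h with
  | refl S c T hT => intro T' hT'; exact Reach.refl _ _ _ (hT'.trans hT)
  | step S c T v w u hv hw hop _ ih =>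
    intro T' hT'
    exact Reach.step _ _ _ v w u hv hw hop (ih hT')

theorem Reach.mono_cost {S T : Set L} {c : ℕ} (h : Reach S c T) :
    ∀ {d : ℕ}, c ≤ d → Reach S d T := by
  induction h with
  | refl S c T hT => intro d _; exact Reach.refl _ _ _ hT
  | step S c T v w u hv hw hop _ ih =>
    intro d hd
    obtain ⟨d', rfl⟩ : ∃ d', d = d' + 1 := ⟨d - 1, by omega⟩
    exact Reach.step _ _ _ v w u hv hw hop (ih (by omega))

theorem Reach.self_union {S T : Set L} {c : ℕ} (h : Reach S c T) : Reach S c (S ∪ T) := by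
  induction h with
  | refl S c T hT => exact Reach.refl _ _ _ (Set.union_subset le_rfl hT)
  | step S c T v w u hv hw hop _ ih =>
    exact Reach.step _ _ _ v w u hv hw hop
      (ih.mono_right (Set.union_subset_union_left _ (Set.subset_insert _ _)))

theorem Reach.trans {S T : Set L} {c : ℕ} (h : Reach S c T) :
    ∀ {d : ℕ} {U : Set L}, Reach (S ∪ T) d U → Reach S (c + d) U := by
  induction h with
  | refl S c T hT =>
    intro d U hU
    exact (hU.mono_left (Set.union_subset le_rfl hT)).mono_cost (by omega)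
  | step S c T v w u hv hw hop _ ih =>
    intro d U hU
    have := ih (hU.mono_left (Set.union_subset_union_left _ (Set.subset_insert u S)))
    have h2 := Reach.step _ _ _ v w u hv hw hop this
    exact h2.mono_cost (by omega)

theorem Reach.union {S T U : Set L} {c d : ℕ} (h : Reach S c T) (h' : Reach S d U) :
    Reach S (c + d) (T ∪ U) := by
  refine h.trans ?_
  refine (h'.mono_left (Set.subset_union_left (t := T))).self_union.mono_right ?_
  intro x hx
  rcases hx with hx | hx
  · exact Or.inl (Or.inr hx)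
  · exact Or.inr hx

theorem Reach.biUnion {ι : Type*} (s : Finset ι) {S : Set L} {c : ℕ} {T : ι → Set L}
    (h : ∀ i ∈ s, Reach S c (T i)) : Reach S (s.card * c) (⋃ i ∈ s, T i) := by
  classical
  induction s using Finset.induction_on with
  | empty => exact Reach.refl _ _ _ (by simp)
  | insert a s ha ih =>
    have h1 := (h a (mem_insert_self _ _)).union (ih fun i hi => h i (mem_insert_of_mem hi))
    rw [Finset.set_biUnion_insert, card_insert_of_notMem ha]
    exact h1.mono_cost (by nlinarith)

theorem Reach.iUnion {ι : Type*} [Fintype ι] {S : Set L} {c : ℕ} {T : ι → Set L}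
    (h : ∀ i, Reach S c (T i)) : Reach S (Fintype.card ι * c) (⋃ i, T i) := by
  have := Reach.biUnion (univ : Finset ι) (S := S) (c := c) (T := T) (fun i _ => h i)
  simpa using this

theorem Reach.range {ι : Type*} [Fintype ι] {S : Set L} {c : ℕ} {f : ι → L}
    (h : ∀ i, Reach S c {f i}) : Reach S (Fintype.card ι * c) (Set.range f) := by
  have := Reach.iUnion h
  rwa [Set.iUnion_singleton_eq_range] at this

theorem Reach.op {S : Set L} {v w u : L} (hv : v ∈ S) (hw : w ∈ S) (h : Op v w u) :
    Reach S 1 {u} :=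
  Reach.step _ 0 _ v w u hv hw h (Reach.refl _ _ _ (by simp))

theorem Reach.sum {ι : Type*} (s : Finset ι) {S : Set L} (h0 : (0 : L) ∈ S) {x y : ι → L}
    (hx : ∀ i, x i ∈ S) (hy : ∀ i, y i ∈ S) :
    Reach S (2 * s.card) {∑ i ∈ s, x i * y i} := by
  classical
  induction s using Finset.induction_on with
  | empty => exact Reach.refl _ _ _ (by simpa using h0)
  | insert a s ha ih =>
    rw [card_insert_of_notMem ha, sum_insert ha]
    have h1 : Reach S 1 {x a * y a} := Reach.op (hx a) (hy a) (Or.inr (Or.inr (Or.inl rfl)))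
    have h2 := (h1.union ih).trans (d := 1) (U := {x a * y a + ∑ i ∈ s, x i * y i})
      (Reach.op (v := x a * y a) (w := ∑ i ∈ s, x i * y i) (by simp) (by simp) (Or.inl rfl))
    exact h2.mono_cost (by omega)

theorem Reach.exists_program {S T : Set L} {c : ℕ} (h : Reach S c T) :
    ∃ r ≤ c, ∃ u : Fin r → L, IsProgram S u ∧ T ⊆ S ∪ Set.range u := by
  induction h with
  | refl S c T hT =>
    exact ⟨0, Nat.zero_le _, Fin.elim0, fun k => k.elim0, hT.trans Set.subset_union_left⟩
  | step S c T v w u0 hv hw hop _ ih =>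
    obtain ⟨r, hr, u, hu, hT⟩ := ih
    refine ⟨r + 1, by omega, Fin.cons u0 u, ?_, ?_⟩
    · intro k
      refine Fin.cases ?_ (fun k => ?_) k
      · exact ⟨v, Or.inl hv, w, Or.inl hw, by simpa [Op] using hop⟩
      · obtain ⟨v', hv', w', hw', h'⟩ := hu k
        have key : ∀ z, z ∈ insert u0 S ∪ u '' {j | j < k} →
            z ∈ S ∪ (Fin.cons u0 u : Fin (r + 1) → L) '' {j | j < k.succ} := by
          rintro z ((rfl | hz) | ⟨j, hj, rfl⟩)
          · exact Or.inr ⟨0, by simp, by simp⟩
          · exact Or.inl hz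
          · exact Or.inr ⟨j.succ, by simpa using hj, by simp⟩
        exact ⟨v', key _ hv', w', key _ hw', by simpa using h'⟩
    · intro z hz
      rcases hT hz with (rfl | hz) | ⟨j, rfl⟩
      · exact Or.inr ⟨0, by simp⟩
      · exact Or.inl hz
      · exact Or.inr ⟨j.succ, by simp⟩

end Reach

end Pool.Agent.MP_f57c03_lc.H35
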