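import Mathlib
import Pool.Agent.MP_f57c03_lc.H35.Reach

namespace Pool.Agent.MP_f57c03_lc.H35

open Finset

/-- A decomposition of the matrix multiplication tensor on index set `ι` into rank one
tensors indexed by `ρ`, with coefficients in `R`. -/
def RankDec (R : Type*) [CommRing R] (ι ρ : Type*) [DecidableEq ι] [Fintype ρ] : Prop :=
  ∃ a b c : ρ → ι → ι → R, ∀ i j j' k i' k' : ι,
    ∑ g, a g i j * b g j' k * c g i' k' = if i = i' ∧ j = j' ∧ k = k' then 1 else 0

section Basic
variable {R : Type*} [CommRing R]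

theorem RankDec.equiv {ι ρ ι' ρ' : Type*} [DecidableEq ι] [Fintype ρ] [DecidableEq ι']
    [Fintype ρ'] (h : RankDec R ι ρ) (e : ι' ≃ ι) (f : ρ' ≃ ρ) : RankDec R ι' ρ' := by
  obtain ⟨a, b, c, h⟩ := h
  refine ⟨fun g i j => a (f g) (e i) (e j), fun g i j => b (f g) (e i) (e j),
    fun g i j => c (f g) (e i) (e j), ?_⟩
  intro i j j' k i' k'
  have := h (e i) (e j) (e j') (e k) (e i') (e k')
  simp only [EmbeddingLike.apply_eq_iff_eq] at this
  rw [← this]
  exact Equiv.sum_comp f (fun g => a g (e i) (e j) * b g (e j') (e k) * c g (e i') (e k'))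

theorem RankDec.prod {ι ρ ι' ρ' : Type*} [DecidableEq ι] [Fintype ρ] [DecidableEq ι']
    [Fintype ρ'] (h : RankDec R ι ρ) (h' : RankDec R ι' ρ') : RankDec R (ι × ι') (ρ × ρ') := by
  obtain ⟨a, b, c, h⟩ := h
  obtain ⟨a', b', c', h'⟩ := h'
  refine ⟨fun g i j => a g.1 i.1 j.1 * a' g.2 i.2 j.2, fun g i j => b g.1 i.1 j.1 * b' g.2 i.2 j.2,
    fun g i j => c g.1 i.1 j.1 * c' g.2 i.2 j.2, ?_⟩
  rintro ⟨i, i2⟩ ⟨j, j2⟩ ⟨j', j2'⟩ ⟨k, k2⟩ ⟨i', i2'⟩ ⟨k', k2'⟩
  have := congrArg₂ (· * ·) (h i j j' k i' k') (h' i2 j2 j2' k2 i2' k2')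
  simp only [Finset.sum_mul_sum] at this
  rw [Fintype.sum_prod_type]
  simp only [Prod.mk.injEq]
  calc _ = ∑ g, ∑ g', a g i j * b g j' k * c g i' k' * (a' g' i2 j2 * b' g' j2' k2 * c' g' i2' k2') :=
        by
          refine Finset.sum_congr rfl fun g _ => Finset.sum_congr rfl fun g' _ => ?_
          ring
    _ = _ := by
          rw [this, ite_zero_mul_ite_zero, mul_one]
          exact if_congr (by tauto) rfl rfl

theorem RankDec.pow {n r : ℕ} (h : RankDec R (Fin n) (Fin r)) (j : ℕ) :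
    RankDec R (Fin (n ^ j)) (Fin (r ^ j)) := by
  induction j with
  | zero =>
    refine ⟨fun _ _ _ => 1, fun _ _ _ => 1, fun _ _ _ => 1, ?_⟩
    intro i j j' k i' k'
    have hs : Subsingleton (Fin (n ^ 0)) := by rw [pow_zero]; infer_instance
    rw [if_pos ⟨Subsingleton.elim _ _, Subsingleton.elim _ _, Subsingleton.elim _ _⟩]
    simp
  | succ j ih =>
    exact (ih.prod h).equiv ((finCongr (pow_succ n j)).trans finProdFinEquiv.symm)
      ((finCongr (pow_succ r j)).trans finProdFinEquiv.symm)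

end Basic

theorem RankDec.descend_finite {K F : Type*} [Field K] [Field F] [Algebra K F]
    [Module.Finite K F] {ι ρ : Type*} [DecidableEq ι] [Fintype ρ] (h : RankDec F ι ρ) :
    RankDec K ι (ρ × Fin (Module.finrank K F) × Fin (Module.finrank K F)) := by
  obtain ⟨a, b, c, h⟩ := h
  let e := Module.finBasis K F
  obtain ⟨l, hl⟩ := LinearMap.exists_leftInverse_of_injective (Algebra.linearMap K F)
    (LinearMap.ker_eq_bot.mpr (algebraMap K F).injective)
  have hl1 : l 1 = 1 := by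
    have := congrArg (fun f => f 1) hl
    simpa using this
  refine ⟨fun g i j => e.repr (a g.1 i j) g.2.1, fun g i j => e.repr (b g.1 i j) g.2.2,
    fun g i j => l (e g.2.1 * e g.2.2 * c g.1 i j), ?_⟩
  intro i j j' k i' k'
  have key : ∀ x y z : F, ∑ s, ∑ t, e.repr x s * e.repr y t * l (e s * e t * z) =
      l (x * y * z) := by
    intro x y z
    conv_rhs => rw [← e.sum_repr x, ← e.sum_repr y]
    rw [Finset.sum_mul_sum, Finset.sum_mul, map_sum]
    refine Finset.sum_congr rfl fun s _ => ?_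
    rw [Finset.sum_mul, map_sum]
    refine Finset.sum_congr rfl fun t _ => ?_
    rw [smul_mul_smul_comm, smul_mul_assoc, map_smul, smul_eq_mul]
  rw [Fintype.sum_prod_type]
  simp only [Fintype.sum_prod_type, key]
  rw [← map_sum, h]
  split_ifs
  · exact hl1
  · exact map_zero l

theorem RankDec.descend {K L : Type*} [Field K] [Field L] [Algebra K L] {n r : ℕ}
    (h : RankDec L (Fin n) (Fin r)) :
    ∃ D : ℕ, 1 ≤ D ∧ ∀ j : ℕ, RankDec K (Fin (n ^ j)) (Fin (r ^ j * D)) := by
  obtain ⟨a, b, c, h⟩ := h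
  let σ := Fin 3 × Fin r × Fin n × Fin n
  let val : σ → L := fun x => ![a, b, c] x.1 x.2.1 x.2.2.1 x.2.2.2
  let φ : MvPolynomial σ K →ₐ[K] L := MvPolynomial.aeval val
  have hker : RingHom.ker φ ≠ ⊤ := RingHom.ker_ne_top φ
  obtain ⟨m, hm, hle⟩ := Ideal.exists_le_maximal _ hker
  let := Ideal.Quotient.field m
  have hfin := finite_of_finite_type_of_isJacobsonRing K (MvPolynomial σ K ⧸ m)
  have hF : RankDec (MvPolynomial σ K ⧸ m) (Fin n) (Fin r) := by
    refine ⟨fun g i j => Ideal.Quotient.mk m (MvPolynomial.X (0, g, i, j)),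
      fun g i j => Ideal.Quotient.mk m (MvPolynomial.X (1, g, i, j)),
      fun g i j => Ideal.Quotient.mk m (MvPolynomial.X (2, g, i, j)), ?_⟩
    intro i j j' k i' k'
    have hmem : (∑ g, MvPolynomial.X (0, g, i, j) * MvPolynomial.X (1, g, j', k) *
        MvPolynomial.X (2, g, i', k') - (if i = i' ∧ j = j' ∧ k = k' then 1 else 0) :
        MvPolynomial σ K) ∈ m := by
      apply hle
      rw [RingHom.mem_ker, map_sub, map_sum]
      simp only [map_mul, φ, MvPolynomial.aeval_X, val]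
      simp only [Matrix.cons_val_zero, Matrix.cons_val_one, Matrix.cons_val]
      rw [h]
      split_ifs <;> simp
    have := Ideal.Quotient.eq.mpr hmem
    rw [map_sum] at this
    simp only [map_mul] at this
    rw [this]
    split_ifs <;> simp
  refine ⟨Module.finrank K (MvPolynomial σ K ⧸ m) * Module.finrank K (MvPolynomial σ K ⧸ m),
    Nat.mul_pos Module.finrank_pos Module.finrank_pos, fun j => ?_⟩
  exact ((hF.pow j).descend_finite (K := K)).equiv (Equiv.refl _)
    (finProdFinEquiv.symm.trans (Equiv.prodCongr (Equiv.refl _) finProdFinEquiv.symm))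

section Rec
variable (K : Type*) {L : Type*} [Field K] [Field L] [Algebra K L]

/-- Matrices indexed by `κ` with available entries can be multiplied in `T` steps. -/
def MM (L : Type*) [Field L] [Algebra K L] (κ : Type*) [Fintype κ] (T : ℕ) : Prop :=
  ∀ S : Set L, Set.range (algebraMap K L) ⊆ S → ∀ A B : κ → κ → L, (∀ i j, A i j ∈ S) →
    (∀ i j, B i j ∈ S) → Reach S T (Set.range fun p : κ × κ => ∑ k, A p.1 k * B k p.2)

variable {K}

theorem MM.mono {κ : Type*} [Fintype κ] {T T' : ℕ} (h : MM K L κ T) (hT : T ≤ T') :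
    MM K L κ T' := fun S hS A B hA hB => (h S hS A B hA hB).mono_cost hT

theorem MM.one : MM K L (Fin 1) 1 := by
  intro S _ A B hA hB
  refine (Reach.op (hA 0 0) (hB 0 0) (u := A 0 0 * B 0 0)
    (Or.inr (Or.inr (Or.inl rfl)))).mono_right ?_
  rintro _ ⟨⟨i, j⟩, rfl⟩
  simp [Subsingleton.elim i 0, Subsingleton.elim j 0]

theorem MM.embed {κ κ' : Type*} [Fintype κ] [Fintype κ'] {T : ℕ} (h : MM K L κ T)
    (f : κ' → κ) (hf : Function.Injective f) : MM K L κ' T := by
  classical
  intro S hS A B hA hB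
  have h0 : (0 : L) ∈ S := hS ⟨0, map_zero _⟩
  let ext : (κ' → κ' → L) → κ → κ → L := fun A x y =>
    Function.extend f (fun i => Function.extend f (A i) 0 y) 0 x
  have hext : ∀ A : κ' → κ' → L, (∀ i j, A i j ∈ S) → ∀ x y, ext A x y ∈ S := by
    intro A hA x y
    by_cases hx : ∃ i, f i = x
    · obtain ⟨i, rfl⟩ := hx
      by_cases hy : ∃ j, f j = y
      · obtain ⟨j, rfl⟩ := hy
        simp only [ext, hf.extend_apply]; exact hA i j
      · simp only [ext, hf.extend_apply, Function.extend_apply' _ _ _ hy]; exact h0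
    · simp only [ext, Function.extend_apply' _ _ _ hx]; exact h0
  refine (h S hS (ext A) (ext B) (hext A hA) (hext B hB)).mono_right ?_
  rintro _ ⟨⟨i, j⟩, rfl⟩
  refine ⟨(f i, f j), ?_⟩
  symm
  refine Fintype.sum_of_injective f hf _ _ ?_ ?_
  · intro y hy
    have hy' : ¬ ∃ j, f j = y := hy
    simp only [ext, hf.extend_apply, Function.extend_apply' _ _ _ hy']
    simp
  · intro k
    simp only [ext, hf.extend_apply]

theorem MM.step {ι ρ κ : Type*} [Fintype ι] [DecidableEq ι] [Fintype ρ] [Fintype κ] {T : ℕ}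
    (hr : RankDec K ι ρ) (h : MM K L κ T) :
    MM K L (ι × κ) (Fintype.card ρ * T +
      6 * Fintype.card ρ * Fintype.card ι ^ 2 * Fintype.card κ ^ 2) := by
  obtain ⟨a, b, c, hr⟩ := hr
  intro S hS A B hA hB
  have h0 : (0 : L) ∈ S := hS ⟨0, map_zero _⟩
  have hK : ∀ x : K, algebraMap K L x ∈ S := fun x => hS ⟨x, rfl⟩
  let A' : ρ → κ → κ → L := fun g p q =>
    ∑ x : ι × ι, algebraMap K L (a g x.1 x.2) * A (x.1, p) (x.2, q)
  let B' : ρ → κ → κ → L := fun g p q =>
    ∑ x : ι × ι, algebraMap K L (b g x.1 x.2) * B (x.1, p) (x.2, q)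
  let P : ρ → κ → κ → L := fun g p q => ∑ k, A' g p k * B' g k q
  let TA : Set L := Set.range fun y : ρ × κ × κ => A' y.1 y.2.1 y.2.2
  let TB : Set L := Set.range fun y : ρ × κ × κ => B' y.1 y.2.1 y.2.2
  let TP : Set L := ⋃ g, Set.range fun p : κ × κ => P g p.1 p.2
  have h1 : Reach S (Fintype.card (ρ × κ × κ) * (2 * (univ : Finset (ι × ι)).card)) TA :=
    Reach.range fun y => Reach.sum univ h0 (fun x => hK _) (fun x => hA _ _)
  have h2 : Reach S (Fintype.card (ρ × κ × κ) * (2 * (univ : Finset (ι × ι)).card)) TB :=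
    Reach.range fun y => Reach.sum univ h0 (fun x => hK _) (fun x => hB _ _)
  have h3 : Reach (S ∪ (TA ∪ TB)) (Fintype.card ρ * T) TP :=
    Reach.iUnion fun g => h _ (hS.trans Set.subset_union_left) (A' g) (B' g)
      (fun p q => Or.inr (Or.inl ⟨(g, p, q), rfl⟩)) (fun p q => Or.inr (Or.inr ⟨(g, p, q), rfl⟩))
  have h4 : Reach (S ∪ TP) (Fintype.card ((ι × κ) × (ι × κ)) * (2 * (univ : Finset ρ).card))
      (Set.range fun y : (ι × κ) × (ι × κ) =>
        ∑ g, algebraMap K L (c g y.1.1 y.2.1) * P g y.1.2 y.2.2) :=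
    Reach.range fun y => Reach.sum (S := S ∪ TP) univ (Or.inl h0) (fun g => Or.inl (hK _))
      (fun g => Or.inr (Set.mem_iUnion.mpr ⟨g, (y.1.2, y.2.2), rfl⟩))
  have h5 := ((h1.union h2).trans h3).trans h4
  have hid : ∀ y : (ι × κ) × (ι × κ), ∑ g, algebraMap K L (c g y.1.1 y.2.1) * P g y.1.2 y.2.2 =
      ∑ k, A y.1 k * B k y.2 := by
    rintro ⟨⟨i', p⟩, ⟨k', q⟩⟩
    have e1 : ∑ g, algebraMap K L (c g i' k') * P g p q =
        ∑ z : κ, ∑ x : ι × ι, ∑ x' : ι × ι,
          algebraMap K L (∑ g, a g x.1 x.2 * b g x'.1 x'.2 * c g i' k') *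
            (A (x.1, p) (x.2, z) * B (x'.1, z) (x'.2, q)) := by
      simp only [P, A', B', Finset.sum_mul_sum]
      simp only [Finset.mul_sum, map_sum, Finset.sum_mul, map_mul]
      rw [Finset.sum_comm]
      refine Finset.sum_congr rfl fun z _ => ?_
      rw [Finset.sum_comm]
      refine Finset.sum_congr rfl fun x _ => ?_
      rw [Finset.sum_comm]
      refine Finset.sum_congr rfl fun x' _ => ?_
      refine Finset.sum_congr rfl fun g _ => ?_
      ring
    simp only at e1 ⊢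
    rw [e1, Fintype.sum_prod_type (f := fun k => A (i', p) k * B k (k', q)), Finset.sum_comm
      (f := fun x y => A (i', p) (x, y) * B (x, y) (k', q))]
    refine Finset.sum_congr rfl fun z _ => ?_
    simp only [hr, Fintype.sum_prod_type]
    rw [Finset.sum_eq_single i']
    · refine Finset.sum_congr rfl fun j _ => ?_
      rw [Finset.sum_eq_single j]
      · rw [Finset.sum_eq_single k']
        · simp
        · intro k _ hk; simp [hk]
        · simp
      · intro j' _ hj; simp [Ne.symm hj]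
      · simp
    · intro i _ hi; simp [hi]
    · simp
  simp only [hid] at h5
  refine h5.mono_cost (le_of_eq ?_)
  simp only [Fintype.card_prod, Finset.card_univ]
  ring

theorem MM.pow {m r : ℕ} (hr : RankDec K (Fin m) (Fin r)) (hm : m ^ 2 ≤ r) (hm1 : 1 ≤ m)
    (k : ℕ) : MM K L (Fin (m ^ k)) (6 * r * m ^ 2 * (2 * r) ^ k) := by
  have hr1 : 1 ≤ r := le_trans (Nat.one_le_pow _ _ hm1) hm
  induction k with
  | zero =>
    have : 1 ≤ 6 * r * m ^ 2 * (2 * r) ^ 0 := by
      have := Nat.one_le_pow 2 m hm1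
      simp only [pow_zero, mul_one]
      nlinarith
    exact (MM.one.embed (finCongr (pow_zero m)) (finCongr (pow_zero m)).injective).mono this
  | succ k ih =>
    have h1 := (MM.step hr ih).embed ((finCongr (pow_succ' m k)).trans finProdFinEquiv.symm)
      (Equiv.injective _)
    refine h1.mono ?_
    simp only [Fintype.card_fin]
    have h2 : (m ^ k) ^ 2 ≤ r * (2 * r) ^ k := by
      calc (m ^ k) ^ 2 = (m ^ 2) ^ k := by rw [← pow_mul, ← pow_mul, mul_comm]
        _ ≤ (2 * r) ^ k := Nat.pow_le_pow_left (by omega) k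
        _ ≤ r * (2 * r) ^ k := Nat.le_mul_of_pos_left _ hr1
    calc r * (6 * r * m ^ 2 * (2 * r) ^ k) + 6 * r * m ^ 2 * (m ^ k) ^ 2
        ≤ r * (6 * r * m ^ 2 * (2 * r) ^ k) + 6 * r * m ^ 2 * (r * (2 * r) ^ k) := by gcongr
      _ = 6 * r * m ^ 2 * (2 * r) ^ (k + 1) := by ring

end Rec

end Pool.Agent.MP_f57c03_lc.H35
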