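import Mathlib
import Pool.Agent.MP_f57c03_lc.H35.Rank

namespace Pool.Agent.MP_f57c03_lc.H35

open Finset

/-- The properties of a derivation that are used. -/
structure IsDer {L : Type*} [Field L] (D : L → L) : Prop where
  add : ∀ u v, D (u + v) = D u + D v
  mul : ∀ u v, D (u * v) = u * D v + v * D u

theorem IsDer.zero {L : Type*} [Field L] {D : L → L} (h : IsDer D) : D 0 = 0 := by
  have := h.add 0 0
  simpa using this

theorem IsDer.sub {L : Type*} [Field L] {D : L → L} (h : IsDer D) (u v : L) :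
    D (u - v) = D u - D v := by
  have := h.add (u - v) v
  rw [sub_add_cancel] at this
  rw [this]; ring

theorem IsDer.one {L : Type*} [Field L] {D : L → L} (h : IsDer D) : D 1 = 0 := by
  have := h.mul 1 1
  simpa using this

theorem IsDer.sum {L : Type*} [Field L] {D : L → L} (h : IsDer D) {ι : Type*} (s : Finset ι)
    (f : ι → L) : D (∑ i ∈ s, f i) = ∑ i ∈ s, D (f i) := by
  classical
  induction s using Finset.induction_on with
  | empty => simpa using h.zero
  | insert a s ha ih => rw [sum_insert ha, sum_insert ha, h.add, ih]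

theorem exists_der (K : Type*) [Field K] (σ : Type*) [DecidableEq σ] (x : σ) :
    ∃ D : FractionRing (MvPolynomial σ K) → FractionRing (MvPolynomial σ K), IsDer D ∧
      (∀ k : K, D (algebraMap K _ k) = 0) ∧
      ∀ y, D (algebraMap (MvPolynomial σ K) _ (MvPolynomial.X y)) = if y = x then 1 else 0 := by
  let P := MvPolynomial σ K
  let L := FractionRing P
  let ψ : P →ₐ[K] DualNumber L := MvPolynomial.aeval fun y =>
    TrivSqZeroExt.inl (algebraMap P L (MvPolynomial.X y)) +
      TrivSqZeroExt.inr (if y = x then (1 : L) else 0)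
  have hfst : ∀ p : P, (ψ p).fst = algebraMap P L p := by
    have : (TrivSqZeroExt.fstHom K L L).comp ψ = IsScalarTower.toAlgHom K P L := by
      apply MvPolynomial.algHom_ext
      intro y
      simp [ψ]
      rfl
    intro p
    exact congrArg (fun f : P →ₐ[K] L => f p) this
  have hunit : ∀ y : nonZeroDivisors P, IsUnit ((ψ : P →+* DualNumber L) y) := by
    intro y
    rw [TrivSqZeroExt.isUnit_iff_isUnit_fst]
    have : ((ψ : P →+* DualNumber L) y).fst = algebraMap P L y := hfst y
    rw [this]
    exact IsLocalization.map_units L y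
  let Φ : L →+* DualNumber L := IsLocalization.lift hunit
  have hΦ : ∀ p : P, Φ (algebraMap P L p) = ψ p := fun p => IsLocalization.lift_eq hunit p
  have hΦfst : ∀ u : L, (Φ u).fst = u := by
    have : ((TrivSqZeroExt.fstHom K L L : DualNumber L →+* L)).comp Φ = RingHom.id L := by
      apply IsLocalization.ringHom_ext (nonZeroDivisors P)
      refine RingHom.ext fun p => ?_
      simp only [RingHom.comp_apply, RingHom.id_apply, hΦ]
      exact hfst p
    intro u
    exact congrArg (fun f : L →+* L => f u) this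
  refine ⟨fun u => (Φ u).snd, ⟨?_, ?_⟩, ?_, ?_⟩
  · intro u v; simp
  · intro u v
    simp only [map_mul, DualNumber.snd_mul, hΦfst]
    ring
  · intro k
    show (Φ (algebraMap K L k)).snd = 0
    rw [IsScalarTower.algebraMap_apply K P L, hΦ, AlgHom.commutes, TrivSqZeroExt.algebraMap_eq_inl']
    simp
  · intro y
    show (Φ (algebraMap P L (MvPolynomial.X y))).snd = _
    rw [hΦ]
    have : ψ (MvPolynomial.X y) = TrivSqZeroExt.inl (algebraMap P L (MvPolynomial.X y)) +
      TrivSqZeroExt.inr (if y = x then (1 : L) else 0) := MvPolynomial.aeval_X _ _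
    rw [this]
    simp

section Span
variable {L : Type*} [Field L] {α β : Type*} (DA : α → L → L) (DB : β → L → L)

/-- The mixed second derivatives. -/
def hess (u : L) : α × β → L := fun p => DA p.1 (DB p.2 u)

/-- The rank one tensor of first derivatives. -/
def rk1 (u : L) : α × β → L := fun p => DA p.1 u * DB p.2 u

def sym (v w : L) : α × β → L := fun p => DA p.1 v * DB p.2 w + DA p.1 w * DB p.2 v

variable {DA DB} (hA : ∀ a, IsDer (DA a)) (hB : ∀ b, IsDer (DB b))
include hA hB

theorem hess_add (v w : L) : hess DA DB (v + w) = hess DA DB v + hess DA DB w := by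
  funext p; simp [hess, (hA _).add, (hB _).add]

theorem hess_sub (v w : L) : hess DA DB (v - w) = hess DA DB v - hess DA DB w := by
  funext p; simp [hess, (hA _).sub, (hB _).sub]

theorem hess_mul (v w : L) :
    hess DA DB (v * w) = v • hess DA DB w + w • hess DA DB v + sym DA DB v w := by
  funext p
  simp only [hess, sym, (hA _).add, (hB _).mul, (hA _).mul, Pi.add_apply, Pi.smul_apply,
    smul_eq_mul]
  ring

theorem rk1_mul (v w : L) :
    rk1 DA DB (v * w) = v ^ 2 • rk1 DA DB w + w ^ 2 • rk1 DA DB v + (v * w) • sym DA DB v w := by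
  funext p
  simp only [rk1, sym, (hB _).mul, (hA _).mul, Pi.add_apply, Pi.smul_apply, smul_eq_mul]
  ring

theorem sym_mem (W : Submodule L (α × β → L)) {v w : L} (hv : rk1 DA DB v ∈ W)
    (hw : rk1 DA DB w ∈ W) (hvw : rk1 DA DB (v * w) ∈ W) : sym DA DB v w ∈ W := by
  by_cases h : v * w = 0
  · have : sym DA DB v w = 0 := by
      funext p
      rcases mul_eq_zero.mp h with rfl | rfl <;> simp [sym, (hA _).zero, (hB _).zero]
    rw [this]; exact W.zero_mem
  · have : sym DA DB v w =
        (v * w)⁻¹ • (rk1 DA DB (v * w) - v ^ 2 • rk1 DA DB w - w ^ 2 • rk1 DA DB v) := by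
      rw [rk1_mul hA hB]
      have e : v ^ 2 • rk1 DA DB w + w ^ 2 • rk1 DA DB v + (v * w) • sym DA DB v w -
          v ^ 2 • rk1 DA DB w - w ^ 2 • rk1 DA DB v = (v * w) • sym DA DB v w := by abel
      rw [e, smul_smul, inv_mul_cancel₀ h, one_smul]
    rw [this]
    exact W.smul_mem _ (W.sub_mem (W.sub_mem hvw (W.smul_mem _ hw)) (W.smul_mem _ hv))

theorem hess_mem_span {I : Set L} (hI : ∀ v ∈ I, hess DA DB v = 0 ∧ rk1 DA DB v = 0) {r : ℕ}
    {u : Fin r → L} (hu : IsProgram I u) (k : Fin r) :
    hess DA DB (u k) ∈ Submodule.span L (Set.range fun j => rk1 DA DB (u j)) := by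
  set W := Submodule.span L (Set.range fun j => rk1 DA DB (u j)) with hW
  have hQ : ∀ j, rk1 DA DB (u j) ∈ W := fun j => Submodule.subset_span ⟨j, rfl⟩
  induction k using WellFoundedLT.induction with
  | _ k ih => ?_
  have key : ∀ v ∈ I ∪ u '' {j | j < k}, hess DA DB v ∈ W ∧ rk1 DA DB v ∈ W := by
    rintro v (hv | ⟨j, hj, rfl⟩)
    · rw [(hI v hv).1, (hI v hv).2]; exact ⟨W.zero_mem, W.zero_mem⟩
    · exact ⟨ih j hj, hQ j⟩
  obtain ⟨v, hv, w, hw, h⟩ := hu k
  obtain ⟨hv1, hv2⟩ := key v hv
  obtain ⟨hw1, hw2⟩ := key w hw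
  have hk := hQ k
  rcases h with h | h | h | ⟨hw0, h⟩
  · rw [h, hess_add hA hB]; exact W.add_mem hv1 hw1
  · rw [h, hess_sub hA hB]; exact W.sub_mem hv1 hw1
  · rw [h] at hk ⊢
    rw [hess_mul hA hB]
    exact W.add_mem (W.add_mem (W.smul_mem _ hw1) (W.smul_mem _ hv1)) (sym_mem hA hB W hv2 hw2 hk)
  · have hv' : v = u k * w := by rw [h]; field_simp
    have hs : sym DA DB (u k) w ∈ W := sym_mem hA hB W hk hw2 (hv' ▸ hv2)
    have e : hess DA DB (u k) =
        w⁻¹ • (hess DA DB v - u k • hess DA DB w - sym DA DB (u k) w) := by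
      conv_rhs => rw [hv', hess_mul hA hB]
      have e : u k • hess DA DB w + w • hess DA DB (u k) + sym DA DB (u k) w -
          u k • hess DA DB w - sym DA DB (u k) w = w • hess DA DB (u k) := by abel
      rw [e, smul_smul, inv_mul_cancel₀ hw0, one_smul]
    rw [e]
    exact W.smul_mem _ (W.sub_mem (W.sub_mem hv1 (W.smul_mem _ hw1)) hs)

end Span

end Pool.Agent.MP_f57c03_lc.H35
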