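import Mathlib
import Pool.Agent.MP_f57c03_lc.H35.Deriv

namespace Pool.Agent.MP_f57c03_lc.H35

open Finset Filter

variable (K : Type*) [Field K]

/-- The entry `(i, j)` of the product of the two generic matrices. -/
noncomputable def out (n : ℕ) (i j : Fin n) : RatFn K n :=
  ∑ k : Fin n, var K n (Sum.inl (i, k)) * var K n (Sum.inr (k, j))

theorem exists_ders (n : ℕ) : ∃ DA DB : Fin n × Fin n → RatFn K n → RatFn K n,
    (∀ a, IsDer (DA a)) ∧ (∀ b, IsDer (DB b)) ∧
    (∀ v ∈ Set.range (var K n) ∪ Set.range (algebraMap K (RatFn K n)),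
      hess DA DB v = 0 ∧ rk1 DA DB v = 0) ∧
    ∀ i j j' k i' k' : Fin n, hess DA DB (out K n i' k') ((i, j), (j', k)) =
      if i = i' ∧ j = j' ∧ k = k' then 1 else 0 := by
  choose D hD hK hX using exists_der K ((Fin n × Fin n) ⊕ (Fin n × Fin n))
  have hX' : ∀ x y, D x (var K n y) = if y = x then 1 else 0 := hX
  have hite : ∀ x (p : Prop) [Decidable p], D x (if p then 1 else 0) = 0 := by
    intro x p _
    split_ifs
    · exact (hD x).one
    · exact (hD x).zero
  refine ⟨fun a => D (Sum.inl a), fun b => D (Sum.inr b), fun a => hD _, fun b => hD _, ?_, ?_⟩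
  · rintro v (⟨x, rfl⟩ | ⟨k, rfl⟩)
    · constructor
      · funext p
        simp only [hess, hX', hite, Pi.zero_apply]
      · funext p
        rcases x with x | x <;> simp [rk1, hX']
    · constructor
      · funext p
        simp only [hess, hK, (hD _).zero, Pi.zero_apply]
      · funext p
        simp [rk1, hK]
  · intro i j j' k i' k'
    simp only [hess, out, (hD _).sum, (hD _).mul, (hD _).add, hX', hite]
    rw [Finset.sum_eq_single j]
    · by_cases h1 : i = i' <;> by_cases h2 : j = j' <;> by_cases h3 : k = k' <;>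
        simp [h1, h2, h3, eq_comm]
    · intro l _ hl
      simp [hl]
    · simp

theorem rankDec_of_program {n r : ℕ} {u : Fin r → RatFn K n}
    (hu : IsProgram (Set.range (var K n) ∪ Set.range (algebraMap K (RatFn K n))) u)
    (hout : ∀ i j, out K n i j ∈ Set.range u) :
    RankDec (RatFn K n) (Fin n) (Fin r) ∧ n ^ 2 ≤ r := by
  obtain ⟨DA, DB, hA, hB, hI, hh⟩ := exists_ders K n
  constructor
  · have h1 : ∀ i k, ∃ c : Fin r → RatFn K n,
        ∑ g, c g • rk1 DA DB (u g) = hess DA DB (out K n i k) := by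
      intro i k
      obtain ⟨g, hg⟩ := hout i k
      rw [← hg]
      exact (Submodule.mem_span_range_iff_exists_fun _).mp (hess_mem_span hA hB hI hu g)
    choose c hc using h1
    refine ⟨fun g i j => DA (i, j) (u g), fun g j k => DB (j, k) (u g), fun g i k => c i k g, ?_⟩
    intro i j j' k i' k'
    rw [← hh, ← hc]
    simp only [Finset.sum_apply, Pi.smul_apply, smul_eq_mul, rk1]
    exact Finset.sum_congr rfl fun g _ => by ring
  · choose f hf using hout
    have hinj : Function.Injective fun p : Fin n × Fin n => f p.1 p.2 := by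
      rintro ⟨i, k⟩ ⟨i', k'⟩ h
      have h2 : out K n i k = out K n i' k' := by
        rw [← hf, ← hf]; exact congrArg u h
      have h3 := hh i i i k i k
      rw [h2, hh] at h3
      by_contra hne
      have : ¬ (i = i' ∧ i = i ∧ k = k') := fun h => hne (Prod.ext h.1 h.2.2)
      rw [if_neg this, if_pos ⟨rfl, rfl, rfl⟩] at h3
      exact zero_ne_one h3
    have := Fintype.card_le_of_injective _ hinj
    simpa [sq] using this

theorem exists_program_of_MM {n T : ℕ} (h : MM K (RatFn K n) (Fin n) T) :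
    ∃ r ≤ T, ∃ u : Fin r → RatFn K n,
      IsProgram (Set.range (var K n) ∪ Set.range (algebraMap K (RatFn K n))) u ∧
      ∀ i j, out K n i j ∈ Set.range u := by
  obtain ⟨DA, DB, -, -, hI, hh⟩ := exists_ders K n
  obtain ⟨r, hr, u, hu, hT⟩ := (h (Set.range (var K n) ∪ Set.range (algebraMap K (RatFn K n)))
    Set.subset_union_right (fun i k => var K n (Sum.inl (i, k)))
    (fun k j => var K n (Sum.inr (k, j))) (fun _ _ => Or.inl ⟨_, rfl⟩)
    (fun _ _ => Or.inl ⟨_, rfl⟩)).exists_program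
  refine ⟨r, hr, u, hu, fun i j => ?_⟩
  rcases hT ⟨(i, j), rfl⟩ with h1 | h1
  · have h2 := (hI _ h1).1
    have h3 := hh i i i j i j
    rw [if_pos ⟨rfl, rfl, rfl⟩] at h3
    have h4 : hess DA DB (out K n i j) = 0 := h2
    rw [h4] at h3
    exact absurd h3 zero_ne_one
  · exact h1

theorem M_le {n T : ℕ} (h : MM K (RatFn K n) (Fin n) T) : M K n ≤ T := by
  obtain ⟨r, hr, hu⟩ := exists_program_of_MM K h
  exact le_trans (Nat.sInf_le hu) hr

theorem M_spec (n : ℕ) : RankDec (RatFn K n) (Fin n) (Fin (M K n)) ∧ n ^ 2 ≤ M K n := by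
  have h : MM K (RatFn K n) (Fin n)
      (Fintype.card (Fin n × Fin n) * (2 * (univ : Finset (Fin n)).card)) := by
    intro S hS A B hA hB
    exact Reach.range fun p => Reach.sum univ (hS ⟨0, map_zero _⟩) (fun _ => hA _ _)
      (fun _ => hB _ _)
  obtain ⟨r, -, hu⟩ := exists_program_of_MM K h
  obtain ⟨u, hu, hout⟩ := Nat.sInf_mem (s := {r : ℕ | ∃ u : Fin r → RatFn K n,
    IsProgram (Set.range (var K n) ∪ Set.range (algebraMap K (RatFn K n))) u ∧
    ∀ i j : Fin n, ∑ k : Fin n, var K n (Sum.inl (i, k)) * var K n (Sum.inr (k, j)) ∈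
      Set.range u}) ⟨r, hu⟩
  exact rankDec_of_program K hu hout

theorem eventually_lt {ω : ℝ} {n : ℕ} (hn : 2 ≤ n) (h : (M K n : ℝ) < (n : ℝ) ^ ω) :
    ∀ᶠ N : ℕ in atTop, (M K N : ℝ) < (N : ℝ) ^ ω := by
  obtain ⟨h1, h2⟩ := M_spec K n
  set r := M K n with hr
  obtain ⟨D, hD, hdec⟩ := h1.descend (K := K)
  have hr1 : 1 ≤ r := le_trans (Nat.one_le_pow _ _ (by omega)) h2
  have hr0 : (0 : ℝ) < r := by exact_mod_cast hr1
  have hn0 : (0 : ℝ) < n := by positivity
  have hn1 : (1 : ℝ) < n := by exact_mod_cast hn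
  have hω : 0 < ω := by
    by_contra hc
    have : (n : ℝ) ^ ω ≤ 1 := Real.rpow_le_one_of_one_le_of_nonpos hn1.le (not_lt.mp hc)
    have h3 : (1 : ℝ) ≤ r := by exact_mod_cast hr1
    linarith
  have hq : 1 < (n : ℝ) ^ ω / r := by rw [one_lt_div hr0]; exact h
  obtain ⟨j, hj, hj1⟩ := (((tendsto_pow_atTop_atTop_of_one_lt hq).eventually_gt_atTop
    (2 * D : ℝ)).and (eventually_ge_atTop 1)).exists
  set m := n ^ j with hm
  set ρ := r ^ j * D with hρ
  have hm2 : 2 ≤ m := le_trans hn (Nat.le_self_pow (by omega) n)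
  have hmρ : m ^ 2 ≤ ρ := by
    calc m ^ 2 = (n ^ 2) ^ j := by rw [hm, ← pow_mul, ← pow_mul, mul_comm]
      _ ≤ r ^ j := Nat.pow_le_pow_left h2 j
      _ ≤ ρ := Nat.le_mul_of_pos_right _ hD
  have hρ0 : (0 : ℝ) < 2 * ρ := by
    have : 1 ≤ ρ := le_trans (Nat.one_le_pow _ _ (by omega)) hmρ
    have : (0 : ℝ) < ρ := by exact_mod_cast this
    linarith
  have hm0 : (0 : ℝ) < m := by positivity
  have hθ : 1 < (m : ℝ) ^ ω / (2 * ρ) := by
    rw [one_lt_div hρ0]
    rw [div_pow, lt_div_iff₀ (by positivity)] at hj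
    have e1 : (m : ℝ) ^ ω = ((n : ℝ) ^ ω) ^ j := by
      rw [hm, Nat.cast_pow, ← Real.rpow_natCast, ← Real.rpow_mul hn0.le, mul_comm,
        Real.rpow_mul hn0.le, Real.rpow_natCast]
    rw [e1, hρ]
    push_cast
    linarith
  obtain ⟨k0, hk0⟩ := eventually_atTop.mp ((tendsto_pow_atTop_atTop_of_one_lt hθ).eventually_gt_atTop
    ((6 * ρ * m ^ 2 : ℝ) * (2 * ρ)))
  filter_upwards [eventually_gt_atTop (m ^ k0)] with N hN
  have hN1 : 1 < N := lt_of_le_of_lt (Nat.one_le_pow _ _ (by omega)) hN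
  obtain ⟨k, hk⟩ : ∃ k, Nat.clog m N = k + 1 :=
    ⟨Nat.clog m N - 1, by have := Nat.clog_pos (b := m) (by omega) hN1; omega⟩
  have hle : N ≤ m ^ (k + 1) := hk ▸ Nat.le_pow_clog (by omega) N
  have hlt : m ^ k < N := by
    have := Nat.pow_pred_clog_lt_self (b := m) (by omega) hN1
    rwa [hk] at this
  have hkk : k0 ≤ k := by
    have : m ^ k0 < m ^ (k + 1) := lt_of_lt_of_le hN hle
    have := (Nat.pow_lt_pow_iff_right (by omega)).mp this
    omega
  have hM : M K N ≤ 6 * ρ * m ^ 2 * (2 * ρ) ^ (k + 1) :=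
    M_le K ((MM.pow (hdec j) hmρ (by omega) (k + 1)).embed (Fin.castLE hle)
      (Fin.castLE_injective hle))
  have hM' : (M K N : ℝ) ≤ 6 * ρ * m ^ 2 * (2 * ρ) ^ (k + 1) := by exact_mod_cast hM
  have h5 := hk0 k hkk
  rw [div_pow, lt_div_iff₀ (by positivity)] at h5
  have h6 : ((m : ℝ) ^ ω) ^ k ≤ (N : ℝ) ^ ω := by
    rw [← Real.rpow_natCast, ← Real.rpow_mul hm0.le, mul_comm, Real.rpow_mul hm0.le,
      Real.rpow_natCast]
    refine Real.rpow_le_rpow (by positivity) ?_ hω.le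
    exact_mod_cast hlt.le
  calc (M K N : ℝ) ≤ 6 * ρ * m ^ 2 * (2 * ρ) ^ (k + 1) := hM'
    _ = 6 * ρ * m ^ 2 * (2 * ρ) * (2 * ρ) ^ k := by ring
    _ < _ := h5
    _ ≤ _ := h6

theorem main (ω : ℝ) (h : ∃ᶠ n : ℕ in atTop, (M K n : ℝ) < (n : ℝ) ^ ω) :
    ∀ᶠ n : ℕ in atTop, (M K n : ℝ) < (n : ℝ) ^ ω * Real.log n := by
  obtain ⟨n, hn, hn2⟩ := (h.and_eventually (eventually_ge_atTop 2)).exists
  have hlog : ∀ᶠ N : ℕ in atTop, 1 ≤ Real.log N :=
    (Real.tendsto_log_atTop.comp tendsto_natCast_atTop_atTop).eventually_ge_atTop 1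
  filter_upwards [eventually_lt K hn2 hn, hlog] with N h1 h2
  exact lt_of_lt_of_le h1 (le_mul_of_one_le_right (by positivity) h2)

end Pool.Agent.MP_f57c03_lc.H35
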